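import Mathlib

set_option autoImplicit false

namespace Pool.Agent.R346.TH

open Finset

/-- summation by parts -/
theorem ab_id (w : ℕ → ℝ) (b : ℕ → ℂ) (R : ℕ) :
    ∑ n ∈ Icc 1 R, (w n : ℂ) * b n = (w R : ℂ) * ∑ n ∈ Icc 1 R, b n +
      ∑ n ∈ Ico 1 R, ((w n : ℂ) - (w (n + 1) : ℂ)) * ∑ m ∈ Icc 1 n, b m := by
  induction R with
  | zero => simp
  | succ R ih =>
    rw [Finset.sum_Icc_succ_top (by omega), ih, Finset.sum_Icc_succ_top (by omega)]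
    rcases Nat.eq_zero_or_pos R with h | h
    · subst h
      simp
    · rw [Finset.sum_Ico_succ_top (by omega)]
      ring

theorem ab_norm (w : ℕ → ℝ) (b : ℕ → ℂ) (R : ℕ) :
    ‖∑ n ∈ Icc 1 R, (w n : ℂ) * b n‖ ≤ |w R| * ‖∑ n ∈ Icc 1 R, b n‖ +
      ∑ n ∈ Ico 1 R, |w n - w (n + 1)| * ‖∑ m ∈ Icc 1 n, b m‖ := by
  rw [ab_id]
  refine (norm_add_le _ _).trans (add_le_add ?_ ?_)
  · rw [norm_mul, Complex.norm_real, Real.norm_eq_abs]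
  · refine (norm_sum_le _ _).trans (Finset.sum_le_sum fun n _ => ?_)
    rw [norm_mul, ← Complex.ofReal_sub, Complex.norm_real, Real.norm_eq_abs]

theorem ab_diff (c : ℝ) (hc0 : 0 ≤ c) (hc1 : c ≤ 1) (n : ℕ) (hn : 1 ≤ n) :
    |(n : ℝ) ^ (-c) - ((n + 1 : ℕ) : ℝ) ^ (-c)| ≤ (n : ℝ) ^ (-c) * (n : ℝ)⁻¹ := by
  have hn0 : (0 : ℝ) < n := by exact_mod_cast hn
  have h1 : ((n + 1 : ℕ) : ℝ) ^ (-c) ≤ (n : ℝ) ^ (-c) := by
    apply Real.rpow_le_rpow_of_nonpos hn0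
    · push_cast; linarith
    · linarith
  rw [abs_of_nonneg (by linarith)]
  have h2 : ((n + 1 : ℕ) : ℝ) = n * (1 + (n : ℝ)⁻¹) := by
    push_cast
    field_simp
  have hpos : 0 < 1 + (n : ℝ)⁻¹ := by positivity
  rw [h2, Real.mul_rpow hn0.le hpos.le]
  have h3 : 1 - (n : ℝ)⁻¹ ≤ (1 + (n : ℝ)⁻¹) ^ (-c) := by
    have h4 : (1 + (n : ℝ)⁻¹) ^ (-(1 : ℝ)) ≤ (1 + (n : ℝ)⁻¹) ^ (-c) := by
      apply Real.rpow_le_rpow_of_exponent_le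
      · have : 0 < (n : ℝ)⁻¹ := by positivity
        linarith
      · linarith
    have h5 : 1 - (n : ℝ)⁻¹ ≤ (1 + (n : ℝ)⁻¹) ^ (-(1 : ℝ)) := by
      rw [Real.rpow_neg_one]
      have h6 : (1 - (n : ℝ)⁻¹) * (1 + (n : ℝ)⁻¹) ≤ 1 := by nlinarith [sq_nonneg ((n : ℝ)⁻¹)]
      have h7 := (le_div_iff₀ hpos).mpr h6
      rwa [one_div] at h7
    linarith
  have h6 : 0 < (n : ℝ) ^ (-c) := Real.rpow_pos_of_pos hn0 _
  nlinarith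

theorem ab_harm (R : ℕ) : ∑ n ∈ Ico 1 R, (n : ℝ)⁻¹ ≤ 1 + Real.log R := by
  have h := harmonic_le_one_add_log R
  refine le_trans ?_ h
  rw [harmonic]
  push_cast
  have : ∑ n ∈ Ico 1 R, (n : ℝ)⁻¹ ≤ ∑ n ∈ Ico 1 (R + 1), (n : ℝ)⁻¹ :=
    Finset.sum_le_sum_of_subset_of_nonneg (Finset.Ico_subset_Ico le_rfl (by omega))
      (fun _ _ _ => by positivity)
  refine this.trans (le_of_eq ?_)
  rw [Finset.sum_Ico_eq_sum_range]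
  simp only [Nat.add_sub_cancel]
  refine Finset.sum_congr rfl fun i _ => ?_
  push_cast
  rw [add_comm]

/-- from the plain sums to the weighted sums -/
theorem ab_fwd (c C s e : ℝ) (hc0 : 0 ≤ c) (hc1 : c ≤ 1) (hC : 0 ≤ C) (hs : 0 ≤ s) (he : 0 < e)
    (b : ℕ → ℂ) (hb : ∀ n : ℕ, ‖∑ m ∈ Icc 1 n, b m‖ ≤ C * (n : ℝ) ^ (s + c)) (R : ℕ)
    (hR : 1 ≤ R) :
    ‖∑ n ∈ Icc 1 R, (((n : ℝ) ^ (-c) : ℝ) : ℂ) * b n‖ ≤ C * (2 + 1 / e) * (R : ℝ) ^ (s + e) := by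
  have hR0 : (0 : ℝ) < R := by exact_mod_cast hR
  have hR1 : (1 : ℝ) ≤ R := by exact_mod_cast hR
  refine (ab_norm (fun n : ℕ => (n : ℝ) ^ (-c)) b R).trans ?_
  have t1 : |(R : ℝ) ^ (-c)| * ‖∑ n ∈ Icc 1 R, b n‖ ≤ C * (R : ℝ) ^ s := by
    rw [abs_of_pos (Real.rpow_pos_of_pos hR0 _)]
    calc (R : ℝ) ^ (-c) * ‖∑ n ∈ Icc 1 R, b n‖ ≤ (R : ℝ) ^ (-c) * (C * (R : ℝ) ^ (s + c)) :=
          mul_le_mul_of_nonneg_left (hb R) (Real.rpow_nonneg hR0.le _)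
      _ = C * ((R : ℝ) ^ (-c) * (R : ℝ) ^ (s + c)) := by ring
      _ = C * (R : ℝ) ^ s := by
          rw [← Real.rpow_add hR0]
          congr 2
          ring
  have t2 : ∑ n ∈ Ico 1 R, |(n : ℝ) ^ (-c) - ((n + 1 : ℕ) : ℝ) ^ (-c)| *
      ‖∑ m ∈ Icc 1 n, b m‖ ≤ C * (R : ℝ) ^ s * (1 + Real.log R) := by
    calc ∑ n ∈ Ico 1 R, |(n : ℝ) ^ (-c) - ((n + 1 : ℕ) : ℝ) ^ (-c)| * ‖∑ m ∈ Icc 1 n, b m‖
        ≤ ∑ n ∈ Ico 1 R, C * (R : ℝ) ^ s * (n : ℝ)⁻¹ := by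
          refine Finset.sum_le_sum fun n hn => ?_
          rw [Finset.mem_Ico] at hn
          have hn0 : (0 : ℝ) < n := by exact_mod_cast hn.1
          have hnR : (n : ℝ) ≤ R := by exact_mod_cast hn.2.le
          calc |(n : ℝ) ^ (-c) - ((n + 1 : ℕ) : ℝ) ^ (-c)| * ‖∑ m ∈ Icc 1 n, b m‖
              ≤ ((n : ℝ) ^ (-c) * (n : ℝ)⁻¹) * (C * (n : ℝ) ^ (s + c)) :=
                mul_le_mul (ab_diff c hc0 hc1 n hn.1) (hb n) (norm_nonneg _) (by positivity)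
            _ = C * ((n : ℝ) ^ (-c) * (n : ℝ) ^ (s + c)) * (n : ℝ)⁻¹ := by ring
            _ = C * (n : ℝ) ^ s * (n : ℝ)⁻¹ := by
                rw [← Real.rpow_add hn0]
                congr 3
                ring
            _ ≤ C * (R : ℝ) ^ s * (n : ℝ)⁻¹ := by
                apply mul_le_mul_of_nonneg_right _ (by positivity)
                exact mul_le_mul_of_nonneg_left (Real.rpow_le_rpow hn0.le hnR hs) hC
      _ = C * (R : ℝ) ^ s * ∑ n ∈ Ico 1 R, (n : ℝ)⁻¹ := by rw [Finset.mul_sum]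
      _ ≤ C * (R : ℝ) ^ s * (1 + Real.log R) :=
          mul_le_mul_of_nonneg_left (ab_harm R) (by positivity)
  have t3 : Real.log R ≤ (R : ℝ) ^ e / e := Real.log_le_rpow_div hR0.le he
  have t4 : (1 : ℝ) ≤ (R : ℝ) ^ e := Real.one_le_rpow hR1 he.le
  calc _ ≤ C * (R : ℝ) ^ s + C * (R : ℝ) ^ s * (1 + Real.log R) := add_le_add t1 t2
    _ = C * (R : ℝ) ^ s * (2 + Real.log R) := by ring
    _ ≤ C * (R : ℝ) ^ s * (2 * (R : ℝ) ^ e + (R : ℝ) ^ e / e) := by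
        apply mul_le_mul_of_nonneg_left _ (by positivity)
        linarith
    _ = C * (2 + 1 / e) * ((R : ℝ) ^ s * (R : ℝ) ^ e) := by ring
    _ = C * (2 + 1 / e) * (R : ℝ) ^ (s + e) := by rw [← Real.rpow_add hR0]

/-- from the weighted sums to the plain sums -/
theorem ab_bwd (c C s : ℝ) (hc0 : 0 ≤ c) (hC : 0 ≤ C) (hs : 0 ≤ s)
    (b : ℕ → ℂ)
    (hb : ∀ n : ℕ, ‖∑ m ∈ Icc 1 n, (((m : ℝ) ^ (-c) : ℝ) : ℂ) * b m‖ ≤ C * (n : ℝ) ^ s)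
    (R : ℕ) (hR : 1 ≤ R) :
    ‖∑ n ∈ Icc 1 R, b n‖ ≤ 2 * C * (R : ℝ) ^ (s + c) := by
  have hR0 : (0 : ℝ) < R := by exact_mod_cast hR
  have e1 : ∑ n ∈ Icc 1 R, b n =
      ∑ n ∈ Icc 1 R, (((n : ℝ) ^ c : ℝ) : ℂ) * ((((n : ℝ) ^ (-c) : ℝ) : ℂ) * b n) := by
    refine Finset.sum_congr rfl fun n hn => ?_
    rw [Finset.mem_Icc] at hn
    have hn0 : (0 : ℝ) < n := by exact_mod_cast hn.1
    rw [← mul_assoc, ← Complex.ofReal_mul, ← Real.rpow_add hn0]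
    simp
  rw [e1]
  refine (ab_norm (fun n : ℕ => (n : ℝ) ^ c) (fun n => (((n : ℝ) ^ (-c) : ℝ) : ℂ) * b n) R).trans ?_
  have hK : 0 ≤ C * (R : ℝ) ^ s := by positivity
  have t1 : |(R : ℝ) ^ c| * ‖∑ n ∈ Icc 1 R, (((n : ℝ) ^ (-c) : ℝ) : ℂ) * b n‖ ≤
      (R : ℝ) ^ c * (C * (R : ℝ) ^ s) := by
    rw [abs_of_pos (Real.rpow_pos_of_pos hR0 _)]
    exact mul_le_mul_of_nonneg_left (hb R) (Real.rpow_nonneg hR0.le _)
  have t2 : ∑ n ∈ Ico 1 R, |(n : ℝ) ^ c - ((n + 1 : ℕ) : ℝ) ^ c| *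
      ‖∑ m ∈ Icc 1 n, (((m : ℝ) ^ (-c) : ℝ) : ℂ) * b m‖ ≤ (R : ℝ) ^ c * (C * (R : ℝ) ^ s) := by
    have t3 : ∑ n ∈ Ico 1 R, |(n : ℝ) ^ c - ((n + 1 : ℕ) : ℝ) ^ c| *
      ‖∑ m ∈ Icc 1 n, (((m : ℝ) ^ (-c) : ℝ) : ℂ) * b m‖ ≤
      ∑ n ∈ Ico 1 R, (((n + 1 : ℕ) : ℝ) ^ c - (n : ℝ) ^ c) * (C * (R : ℝ) ^ s) := by
      refine Finset.sum_le_sum fun n hn => ?_
      rw [Finset.mem_Ico] at hn
      have hn0 : (0 : ℝ) < n := by exact_mod_cast hn.1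
      have hnR : (n : ℝ) ≤ R := by exact_mod_cast hn.2.le
      have hmono : (n : ℝ) ^ c ≤ ((n + 1 : ℕ) : ℝ) ^ c := by
        apply Real.rpow_le_rpow hn0.le _ hc0
        push_cast
        linarith
      rw [abs_sub_comm, abs_of_nonneg (by linarith)]
      apply mul_le_mul_of_nonneg_left _ (by linarith)
      exact (hb n).trans (mul_le_mul_of_nonneg_left (Real.rpow_le_rpow hn0.le hnR hs) hC)
    refine t3.trans ?_
    rw [← Finset.sum_mul]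
    apply mul_le_mul_of_nonneg_right _ hK
    have htel : ∀ N : ℕ, 1 ≤ N → ∑ n ∈ Ico 1 N, (((n + 1 : ℕ) : ℝ) ^ c - (n : ℝ) ^ c) =
        (N : ℝ) ^ c - 1 := by
      intro N hN
      induction N, hN using Nat.le_induction with
      | base => simp
      | succ N hN ih =>
        rw [Finset.sum_Ico_succ_top hN, ih]
        ring
    rw [htel R hR]
    linarith
  calc _ ≤ (R : ℝ) ^ c * (C * (R : ℝ) ^ s) + (R : ℝ) ^ c * (C * (R : ℝ) ^ s) := add_le_add t1 t2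
    _ = 2 * C * ((R : ℝ) ^ s * (R : ℝ) ^ c) := by ring
    _ = 2 * C * (R : ℝ) ^ (s + c) := by rw [← Real.rpow_add hR0]

end Pool.Agent.R346.TH
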