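import Mathlib

/-!
# Random thinnings of the Moebius exponential sum: definitions and statements of the pieces
-/

set_option autoImplicit false

open MeasureTheory ProbabilityTheory Finset

namespace Pool.Agent.R346.TH

universe u

/-- `e(n x)` -/
noncomputable def ee (n : ℕ) (x : ℝ) : ℂ := Complex.exp (2 * Real.pi * Complex.I * n * x)

/-- `μ(n)` as a complex number -/
noncomputable def mu (n : ℕ) : ℂ := ((ArithmeticFunction.moebius n : ℤ) : ℂ)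

/-- the Moebius exponential sum `F_R(x) = ∑_{n ≤ R} μ(n) e(nx)` -/
noncomputable def F (R : ℕ) (x : ℝ) : ℂ := ∑ n ∈ Icc 1 R, mu n * ee n x

/-- the sum with weights `δ(n)` -/
noncomputable def Fd (δ : ℕ → ℝ) (R : ℕ) (x : ℝ) : ℂ := ∑ n ∈ Icc 1 R, (δ n : ℂ) * (mu n * ee n x)

open Classical in
/-- the sum over the elements of `A` -/
noncomputable def FA (A : Set ℕ) (R : ℕ) (x : ℝ) : ℂ :=
  ∑ n ∈ (Icc 1 R).filter (fun n => n ∈ A), mu n * ee n x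

/-- `G_R(x) = O(R^(a + ε))` for every `ε > 0`, uniformly in `x` -/
def Bound (G : ℕ → ℝ → ℂ) (a : ℝ) : Prop := ∀ ε : ℝ, 0 < ε → ∃ C : ℝ, ∀ (R : ℕ) (x : ℝ),
  ‖G R x‖ ≤ C * (R : ℝ) ^ (a + ε)

/-- TAIL: Chernoff bound for sums of independent centred indicators with weights -/
def S_TAIL : Prop := ∀ {Ω : Type u} [MeasurableSpace Ω] (P : Measure Ω) [IsProbabilityMeasure P]
  (S : ℕ → Set Ω) (δ : ℕ → ℝ) (R : ℕ) (b : ℕ → ℝ) (t lam : ℝ), (∀ n, MeasurableSet (S n)) →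
  iIndepSet S P → (∀ n, P.real (S n) = δ n) → (∀ n, |b n| ≤ 1) → 0 ≤ t → t ≤ 1 →
  P.real {ω | lam ≤ ∑ n ∈ Icc 1 R, b n * ((S n).indicator (fun _ => (1 : ℝ)) ω - δ n)} ≤
    Real.exp (-(t * lam) + t ^ 2 * ∑ n ∈ Icc 1 R, δ n)

/-- ABEL: summation by parts, both directions -/
def S_ABEL : Prop := ∀ (p c a : ℝ), 0 < p → 0 ≤ c → c < 1 → (1 + c) / 2 ≤ a →
  (Bound F a ↔ Bound (Fd fun n => p * (n : ℝ) ^ (-c)) (a - c))

end Pool.Agent.R346.TH
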