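import Pool.Agent.R346.TH.Defs

/-!
# Random thinnings of the Moebius exponential sum: the uniform bound
-/

set_option autoImplicit false

open MeasureTheory ProbabilityTheory Finset Filter Topology

namespace Pool.Agent.R346.TH

universe u

theorem sum_inv (R : ℕ) : ∑ n ∈ Icc 1 R, ((n : ℝ))⁻¹ ≤ 1 + Real.log R := by
  have h := harmonic_le_one_add_log R
  rw [harmonic_eq_sum_Icc] at h
  push_cast at h
  exact h

theorem sum_delta (p c : ℝ) (_hp0 : 0 < p) (hp1 : p ≤ 1) (hc1 : c < 1) (R : ℕ) :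
    ∑ n ∈ Icc 1 R, p * (n : ℝ) ^ (-c) ≤ (R : ℝ) ^ (1 - c) * (1 + Real.log R) := by
  calc _ ≤ ∑ n ∈ Icc 1 R, (R : ℝ) ^ (1 - c) * ((n : ℝ))⁻¹ := by
        apply sum_le_sum
        intro n hn
        obtain ⟨h1, h2⟩ := mem_Icc.1 hn
        have hn0 : (0 : ℝ) < n := by exact_mod_cast h1
        have e : (n : ℝ) ^ (-c) = (n : ℝ) ^ (1 - c) * (n : ℝ)⁻¹ := by
          rw [← Real.rpow_neg_one, ← Real.rpow_add hn0]
          congr 1; ring
        have h3 : (n : ℝ) ^ (1 - c) ≤ (R : ℝ) ^ (1 - c) :=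
          Real.rpow_le_rpow hn0.le (by exact_mod_cast h2) (by linarith)
        have h4 : 0 ≤ (n : ℝ) ^ (-c) := Real.rpow_nonneg hn0.le _
        calc p * (n : ℝ) ^ (-c) ≤ 1 * (n : ℝ) ^ (-c) := mul_le_mul_of_nonneg_right hp1 h4
          _ = (n : ℝ) ^ (1 - c) * (n : ℝ)⁻¹ := by rw [one_mul, e]
          _ ≤ _ := mul_le_mul_of_nonneg_right h3 (by positivity)
    _ = (R : ℝ) ^ (1 - c) * ∑ n ∈ Icc 1 R, ((n : ℝ))⁻¹ := by rw [mul_sum]
    _ ≤ _ := mul_le_mul_of_nonneg_left (sum_inv R) (by positivity)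

section

variable {Ω : Type u} [MeasurableSpace Ω]

/-- weighted sum of the centred indicators -/
noncomputable def XX (S : ℕ → Set Ω) (p c : ℝ) (R : ℕ) (b : ℕ → ℝ) (ω : Ω) : ℝ :=
  ∑ n ∈ Icc 1 R, b n * ((S n).indicator (fun _ => (1 : ℝ)) ω - p * (n : ℝ) ^ (-c))

/-- the data -/
structure Dat (P : Measure Ω) (S : ℕ → Set Ω) (p c : ℝ) : Prop where
  prob : IsProbabilityMeasure P
  meas : ∀ n, MeasurableSet (S n)
  ind : iIndepSet S P
  p0 : 0 < p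
  p1 : p ≤ 1
  c0 : 0 ≤ c
  c1 : c < 1
  prb : ∀ n : ℕ, 1 ≤ n → P.real (S n) = p * (n : ℝ) ^ (-c)

variable {P : Measure Ω} {S : ℕ → Set Ω} {p c : ℝ}

theorem tail1 (hT : S_TAIL.{u}) (hD : Dat P S p c) (ε : ℝ) (R : ℕ)
    (hR : 1 ≤ R) (b : ℕ → ℝ) (hb : ∀ n, |b n| ≤ 1) :
    P.real {ω | (R : ℝ) ^ ((1 - c) / 2 + ε) ≤ XX S p c R b ω} ≤
      Real.exp 1 * R * Real.exp (-(R : ℝ) ^ ε) := by
  have hp := hD.prob
  have hc1 := hD.c1
  have hR0 : (0 : ℝ) < R := by exact_mod_cast hR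
  have h := hT P S (fun n => P.real (S n)) R b ((R : ℝ) ^ (-((1 - c) / 2)))
    ((R : ℝ) ^ ((1 - c) / 2 + ε)) hD.meas hD.ind (fun _ => rfl) hb (by positivity)
    (Real.rpow_le_one_of_one_le_of_nonpos (by exact_mod_cast hR) (by linarith))
  have e1 : ∀ ω, ∑ n ∈ Icc 1 R, b n * ((S n).indicator (fun _ => (1 : ℝ)) ω - P.real (S n)) =
      XX S p c R b ω := fun ω => sum_congr rfl fun n hn => by rw [hD.prb n (mem_Icc.1 hn).1]
  have e2 : ∑ n ∈ Icc 1 R, P.real (S n) = ∑ n ∈ Icc 1 R, p * (n : ℝ) ^ (-c) :=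
    sum_congr rfl fun n hn => by rw [hD.prb n (mem_Icc.1 hn).1]
  simp only [e1, e2] at h
  refine h.trans ?_
  have e3 : (R : ℝ) ^ (-((1 - c) / 2)) * (R : ℝ) ^ ((1 - c) / 2 + ε) = (R : ℝ) ^ ε := by
    rw [← Real.rpow_add hR0]; congr 1; ring
  have e4 : ((R : ℝ) ^ (-((1 - c) / 2))) ^ 2 * ((R : ℝ) ^ (1 - c) * (1 + Real.log R)) =
      1 + Real.log R := by
    rw [← mul_assoc, ← Real.rpow_natCast, ← Real.rpow_mul hR0.le, ← Real.rpow_add hR0]
    have : -((1 - c) / 2) * ((2 : ℕ) : ℝ) + (1 - c) = 0 := by push_cast; ring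
    rw [this, Real.rpow_zero, one_mul]
  rw [e3]
  have h5 : ((R : ℝ) ^ (-((1 - c) / 2))) ^ 2 * ∑ n ∈ Icc 1 R, p * (n : ℝ) ^ (-c) ≤
      1 + Real.log R := by
    rw [← e4]
    exact mul_le_mul_of_nonneg_left (sum_delta p c hD.p0 hD.p1 hc1 R) (by positivity)
  calc _ ≤ Real.exp (-((R : ℝ) ^ ε) + (1 + Real.log R)) := Real.exp_le_exp.2 (by linarith)
    _ = _ := by rw [Real.exp_add, Real.exp_add, Real.exp_log hR0]; ring

theorem tail2 (hT : S_TAIL.{u}) (hD : Dat P S p c) (ε : ℝ) (R : ℕ)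
    (hR : 1 ≤ R) (b : ℕ → ℝ) (hb : ∀ n, |b n| ≤ 1) :
    P.real {ω | (R : ℝ) ^ ((1 - c) / 2 + ε) < |XX S p c R b ω|} ≤
      2 * (Real.exp 1 * R * Real.exp (-(R : ℝ) ^ ε)) := by
  have hp := hD.prob
  have h1 := tail1 hT hD ε R hR b hb
  have h2 := tail1 hT hD ε R hR (fun n => -b n) (fun n => by rw [abs_neg]; exact hb n)
  have hneg : ∀ ω, XX S p c R (fun n => -b n) ω = -XX S p c R b ω := by
    intro ω
    unfold XX
    rw [← sum_neg_distrib]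
    exact sum_congr rfl fun n _ => by ring
  have hsub : {ω | (R : ℝ) ^ ((1 - c) / 2 + ε) < |XX S p c R b ω|} ⊆
      {ω | (R : ℝ) ^ ((1 - c) / 2 + ε) ≤ XX S p c R b ω} ∪
      {ω | (R : ℝ) ^ ((1 - c) / 2 + ε) ≤ XX S p c R (fun n => -b n) ω} := by
    intro ω hω
    rcases lt_abs.1 (show (R : ℝ) ^ ((1 - c) / 2 + ε) < |XX S p c R b ω| from hω) with h | h
    · exact Or.inl h.le
    · right
      show (R : ℝ) ^ ((1 - c) / 2 + ε) ≤ XX S p c R (fun n => -b n) ω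
      rw [hneg]; exact h.le
  calc _ ≤ P.real ({ω | (R : ℝ) ^ ((1 - c) / 2 + ε) ≤ XX S p c R b ω} ∪
      {ω | (R : ℝ) ^ ((1 - c) / 2 + ε) ≤ XX S p c R (fun n => -b n) ω}) :=
        measureReal_mono hsub
    _ ≤ _ := measureReal_union_le _ _
    _ ≤ _ := by linarith

/-- the values of the Moebius function as real numbers -/
noncomputable def mr (n : ℕ) : ℝ := ((ArithmeticFunction.moebius n : ℤ) : ℝ)

theorem mr_le (n : ℕ) : |mr n| ≤ 1 := by
  unfold mr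
  have h := ArithmeticFunction.abs_moebius_le_one (n := n)
  exact_mod_cast h

/-- the bad event -/
def EE (S : ℕ → Set Ω) (p c ε : ℝ) (R : ℕ) : Set Ω :=
  ⋃ j ∈ range (R ^ 2 + 1),
    ({ω | (R : ℝ) ^ ((1 - c) / 2 + ε) <
        |XX S p c R (fun n => mr n * Real.cos (2 * Real.pi * n * ((j : ℝ) / (R : ℝ) ^ 2))) ω|} ∪
     {ω | (R : ℝ) ^ ((1 - c) / 2 + ε) <
        |XX S p c R (fun n => mr n * Real.sin (2 * Real.pi * n * ((j : ℝ) / (R : ℝ) ^ 2))) ω|})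

theorem EE_le (hT : S_TAIL.{u}) (hD : Dat P S p c) (ε : ℝ) (hε : 0 < ε) :
    ∃ K : ℝ, ∀ R : ℕ, 1 ≤ R → P.real (EE S p c ε R) ≤ K * (1 / (R : ℝ) ^ 2) := by
  have hp := hD.prob
  obtain ⟨k, hk⟩ := exists_nat_gt (5 / ε)
  have hk' : 5 ≤ ε * k := by
    rw [div_lt_iff₀ hε] at hk
    linarith
  refine ⟨8 * Real.exp 1 * k.factorial, fun R hR => ?_⟩
  have hR1 : (1 : ℝ) ≤ R := by exact_mod_cast hR
  have hR0 : (0 : ℝ) < R := by linarith
  have hx : Real.exp (-(R : ℝ) ^ ε) ≤ k.factorial / (R : ℝ) ^ 5 := by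
    have h1 := Real.pow_div_factorial_le_exp ((R : ℝ) ^ ε) (by positivity) k
    have h2 : (R : ℝ) ^ 5 ≤ ((R : ℝ) ^ ε) ^ k := by
      rw [← Real.rpow_natCast, ← Real.rpow_natCast, ← Real.rpow_mul hR0.le]
      apply Real.rpow_le_rpow_of_exponent_le hR1
      push_cast; linarith
    have h3 : (0 : ℝ) < k.factorial := by exact_mod_cast k.factorial_pos
    rw [Real.exp_neg, inv_eq_one_div, div_le_div_iff₀ (Real.exp_pos _) (by positivity), one_mul]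
    rw [div_le_iff₀ h3] at h1
    linarith
  have h1 : P.real (EE S p c ε R) ≤ ∑ _j ∈ range (R ^ 2 + 1),
      (4 * (Real.exp 1 * R * Real.exp (-(R : ℝ) ^ ε))) := by
    refine (measureReal_biUnion_finset_le _ _).trans ?_
    apply sum_le_sum
    intro j _
    refine (measureReal_union_le _ _).trans ?_
    have ha := tail2 hT hD ε R hR
      (fun n => mr n * Real.cos (2 * Real.pi * n * ((j : ℝ) / (R : ℝ) ^ 2))) (fun n => by
        rw [abs_mul]; exact mul_le_one₀ (mr_le n) (abs_nonneg _) (Real.abs_cos_le_one _))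
    have hb := tail2 hT hD ε R hR
      (fun n => mr n * Real.sin (2 * Real.pi * n * ((j : ℝ) / (R : ℝ) ^ 2))) (fun n => by
        rw [abs_mul]; exact mul_le_one₀ (mr_le n) (abs_nonneg _) (Real.abs_sin_le_one _))
    linarith
  rw [sum_const, card_range, nsmul_eq_mul] at h1
  refine h1.trans ?_
  push_cast
  have h2 : ((R : ℝ) ^ 2 + 1) ≤ 2 * (R : ℝ) ^ 2 := by nlinarith
  have h3 : 4 * (Real.exp 1 * R * Real.exp (-(R : ℝ) ^ ε)) ≤
      4 * (Real.exp 1 * R * (k.factorial / (R : ℝ) ^ 5)) := by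
    have := Real.exp_pos 1
    gcongr
  calc ((R : ℝ) ^ 2 + 1) * (4 * (Real.exp 1 * R * Real.exp (-(R : ℝ) ^ ε)))
      ≤ (2 * (R : ℝ) ^ 2) * (4 * (Real.exp 1 * R * (k.factorial / (R : ℝ) ^ 5))) := by
        have := Real.exp_pos 1
        have := Real.exp_pos (-(R : ℝ) ^ ε)
        gcongr
    _ = 8 * Real.exp 1 * k.factorial * (1 / (R : ℝ) ^ 2) := by
        field_simp
        ring

theorem ae_EE (hT : S_TAIL.{u}) (hD : Dat P S p c) (ε : ℝ) (hε : 0 < ε) :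
    ∀ᵐ ω ∂P, ∀ᶠ R : ℕ in atTop, ω ∉ EE S p c ε (R + 1) := by
  have hp := hD.prob
  obtain ⟨K, hK⟩ := EE_le hT hD ε hε
  apply ae_eventually_notMem
  have hsum : Summable fun R : ℕ => K * (1 / ((R + 1 : ℕ) : ℝ) ^ 2) :=
    ((summable_nat_add_iff 1).2 (Real.summable_one_div_nat_pow.2 (by norm_num : 1 < 2))).mul_left K
  have hsum2 : Summable fun R : ℕ => P.real (EE S p c ε (R + 1)) :=
    Summable.of_nonneg_of_le (fun _ => measureReal_nonneg) (fun R => hK (R + 1) (by omega)) hsum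
  have h3 : ∀ R : ℕ, P (EE S p c ε (R + 1)) = ENNReal.ofReal (P.real (EE S p c ε (R + 1))) :=
    fun R => (ENNReal.ofReal_toReal (measure_ne_top P _)).symm
  simp_rw [h3]
  rw [← ENNReal.ofReal_tsum_of_nonneg (fun _ => measureReal_nonneg) hsum2]
  exact ENNReal.ofReal_ne_top

end

end Pool.Agent.R346.TH
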