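import Pool.Agent.R346.TH.Sup

/-!
# Random thinnings of the Moebius exponential sum: the uniform bound, part 2
-/

set_option autoImplicit false

open MeasureTheory ProbabilityTheory Finset Filter Topology

namespace Pool.Agent.R346.TH

universe u

theorem ee_eq (n : ℕ) (x : ℝ) : ee n x = ((Real.cos (2 * Real.pi * n * x) : ℝ) : ℂ) +
    ((Real.sin (2 * Real.pi * n * x) : ℝ) : ℂ) * Complex.I := by
  unfold ee
  have : (2 * Real.pi * Complex.I * n * x : ℂ) = ((2 * Real.pi * n * x : ℝ) : ℂ) * Complex.I := by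
    push_cast; ring
  rw [this, Complex.exp_mul_I, Complex.ofReal_cos, Complex.ofReal_sin]

theorem norm_ee (n : ℕ) (x : ℝ) : ‖ee n x‖ = 1 := by
  unfold ee
  have : (2 * Real.pi * Complex.I * n * x : ℂ) = ((2 * Real.pi * n * x : ℝ) : ℂ) * Complex.I := by
    push_cast; ring
  rw [this, Complex.norm_exp_ofReal_mul_I]

theorem mu_eq (n : ℕ) : mu n = ((mr n : ℝ) : ℂ) := by
  unfold mu mr
  push_cast
  rfl

theorem norm_mu (n : ℕ) : ‖mu n‖ ≤ 1 := by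
  rw [mu_eq, Complex.norm_real]
  exact mr_le n

theorem ee_lip (n : ℕ) (x y : ℝ) : ‖ee n x - ee n y‖ ≤ 2 * Real.pi * n * |x - y| := by
  have h : ee n x - ee n y =
      ee n y * (Complex.exp (Complex.I * ((2 * Real.pi * n * (x - y) : ℝ) : ℂ)) - 1) := by
    unfold ee
    rw [mul_sub, ← Complex.exp_add, mul_one]
    congr 2
    push_cast
    ring
  rw [h, norm_mul, norm_ee, one_mul]
  refine (Real.norm_exp_I_mul_ofReal_sub_one_le (x := 2 * Real.pi * n * (x - y))).trans ?_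
  rw [Real.norm_eq_abs, abs_mul, abs_of_nonneg (by positivity : (0 : ℝ) ≤ 2 * Real.pi * n)]

theorem ee_fract (n : ℕ) (x : ℝ) : ee n x = ee n (Int.fract x) := by
  unfold ee
  have h : (2 * Real.pi * Complex.I * n * x : ℂ) =
      2 * Real.pi * Complex.I * n * ((Int.fract x : ℝ) : ℂ) +
        (((n : ℤ) * ⌊x⌋ : ℤ) : ℂ) * (2 * Real.pi * Complex.I) := by
    have hx : ((x : ℝ) : ℂ) = ((Int.fract x : ℝ) : ℂ) + ((⌊x⌋ : ℤ) : ℂ) := by
      rw [← Complex.ofReal_intCast, ← Complex.ofReal_add, Int.fract_add_floor]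
    rw [hx]
    push_cast
    ring
  rw [h, Complex.exp_add, Complex.exp_int_mul_two_pi_mul_I, mul_one]

section

variable {Ω : Type u} [MeasurableSpace Ω]

/-- the difference of the two exponential sums -/
noncomputable def gg (S : ℕ → Set Ω) (p c : ℝ) (R : ℕ) (x : ℝ) (ω : Ω) : ℂ :=
  ∑ n ∈ Icc 1 R, (((S n).indicator (fun _ => (1 : ℝ)) ω - p * (n : ℝ) ^ (-c) : ℝ) : ℂ) *
    (mu n * ee n x)

theorem gg_FA (S : ℕ → Set Ω) (p c : ℝ) (R : ℕ) (x : ℝ) (ω : Ω) :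
    FA {n | ω ∈ S n} R x - Fd (fun n => p * (n : ℝ) ^ (-c)) R x = gg S p c R x ω := by
  unfold FA Fd gg
  rw [sum_filter, ← sum_sub_distrib]
  apply sum_congr rfl
  intro n _
  by_cases h : ω ∈ S n
  · rw [if_pos (show n ∈ {n | ω ∈ S n} from h), Set.indicator_of_mem h]
    push_cast
    ring
  · rw [if_neg (show ¬ n ∈ {n | ω ∈ S n} from h), Set.indicator_of_notMem h]
    push_cast
    ring

theorem gg_eq (S : ℕ → Set Ω) (p c : ℝ) (R : ℕ) (x : ℝ) (ω : Ω) :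
    gg S p c R x ω = ((XX S p c R (fun n => mr n * Real.cos (2 * Real.pi * n * x)) ω : ℝ) : ℂ) +
      ((XX S p c R (fun n => mr n * Real.sin (2 * Real.pi * n * x)) ω : ℝ) : ℂ) * Complex.I := by
  unfold gg XX
  rw [Complex.ofReal_sum, Complex.ofReal_sum, sum_mul, ← sum_add_distrib]
  apply sum_congr rfl
  intro n _
  rw [ee_eq, mu_eq]
  simp only [Complex.ofReal_mul]
  ring

theorem gg_norm (S : ℕ → Set Ω) (p c : ℝ) (R : ℕ) (x : ℝ) (ω : Ω) :
    ‖gg S p c R x ω‖ ≤ |XX S p c R (fun n => mr n * Real.cos (2 * Real.pi * n * x)) ω| +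
      |XX S p c R (fun n => mr n * Real.sin (2 * Real.pi * n * x)) ω| := by
  rw [gg_eq]
  refine (norm_add_le _ _).trans ?_
  rw [norm_mul, Complex.norm_I, mul_one, Complex.norm_real, Complex.norm_real, Real.norm_eq_abs,
    Real.norm_eq_abs]

variable {P : Measure Ω} {S : ℕ → Set Ω} {p c : ℝ}

theorem wt (hD : Dat P S p c) (n : ℕ) (hn : 1 ≤ n) (ω : Ω) :
    ‖(((S n).indicator (fun _ => (1 : ℝ)) ω - p * (n : ℝ) ^ (-c) : ℝ) : ℂ)‖ ≤ 1 := by
  have hn1 : (1 : ℝ) ≤ n := by exact_mod_cast hn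
  have h1 : (n : ℝ) ^ (-c) ≤ 1 :=
    Real.rpow_le_one_of_one_le_of_nonpos hn1 (by linarith [hD.c0])
  have h0 : 0 ≤ (n : ℝ) ^ (-c) := by positivity
  have h2 : p * (n : ℝ) ^ (-c) ≤ 1 := by nlinarith [hD.p0, hD.p1]
  have h3 : 0 ≤ p * (n : ℝ) ^ (-c) := mul_nonneg hD.p0.le h0
  rw [Complex.norm_real, Real.norm_eq_abs, abs_le]
  by_cases h : ω ∈ S n
  · rw [Set.indicator_of_mem h]
    constructor <;> linarith
  · rw [Set.indicator_of_notMem h]
    constructor <;> linarith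

theorem gg_lip (hD : Dat P S p c) (R : ℕ) (x y : ℝ) (ω : Ω) :
    ‖gg S p c R x ω - gg S p c R y ω‖ ≤ 2 * Real.pi * (R : ℝ) ^ 2 * |x - y| := by
  unfold gg
  rw [← sum_sub_distrib]
  calc _ ≤ ∑ n ∈ Icc 1 R, ‖(((S n).indicator (fun _ => (1 : ℝ)) ω - p * (n : ℝ) ^ (-c) : ℝ) : ℂ) *
        (mu n * ee n x) - (((S n).indicator (fun _ => (1 : ℝ)) ω - p * (n : ℝ) ^ (-c) : ℝ) : ℂ) *
        (mu n * ee n y)‖ := norm_sum_le _ _
    _ ≤ ∑ _n ∈ Icc 1 R, 2 * Real.pi * (R : ℝ) * |x - y| := by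
        apply sum_le_sum
        intro n hn
        obtain ⟨h1, h2⟩ := mem_Icc.1 hn
        rw [← mul_sub, ← mul_sub, norm_mul, norm_mul]
        have ha := wt hD n h1 ω
        have hb := norm_mu n
        have hc := ee_lip n x y
        have hd : 2 * Real.pi * (n : ℝ) * |x - y| ≤ 2 * Real.pi * (R : ℝ) * |x - y| := by
          have : (n : ℝ) ≤ R := by exact_mod_cast h2
          gcongr
        calc _ ≤ 1 * (1 * (2 * Real.pi * n * |x - y|)) := by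
              gcongr
          _ ≤ _ := by linarith
    _ = _ := by
        rw [sum_const, Nat.card_Icc, nsmul_eq_mul, Nat.add_sub_cancel]
        ring

theorem gg_triv (hD : Dat P S p c) (R : ℕ) (x : ℝ) (ω : Ω) : ‖gg S p c R x ω‖ ≤ R := by
  unfold gg
  calc _ ≤ ∑ n ∈ Icc 1 R, ‖(((S n).indicator (fun _ => (1 : ℝ)) ω - p * (n : ℝ) ^ (-c) : ℝ) : ℂ) *
        (mu n * ee n x)‖ := norm_sum_le _ _
    _ ≤ ∑ _n ∈ Icc 1 R, (1 : ℝ) := by
        apply sum_le_sum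
        intro n hn
        rw [norm_mul, norm_mul, norm_ee, mul_one]
        exact mul_le_one₀ (wt hD n (mem_Icc.1 hn).1 ω) (norm_nonneg _) (norm_mu n)
    _ = R := by simp

theorem gg_fract (S : ℕ → Set Ω) (p c : ℝ) (R : ℕ) (x : ℝ) (ω : Ω) :
    gg S p c R x ω = gg S p c R (Int.fract x) ω := by
  unfold gg
  exact sum_congr rfl fun n _ => by rw [ee_fract n x]

theorem gg_sup (hD : Dat P S p c) (ε : ℝ) (R : ℕ) (hR : 1 ≤ R) (ω : Ω)
    (hω : ω ∉ EE S p c ε R) (x : ℝ) :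
    ‖gg S p c R x ω‖ ≤ 2 * (R : ℝ) ^ ((1 - c) / 2 + ε) + 2 * Real.pi := by
  have hR1 : (1 : ℝ) ≤ R := by exact_mod_cast hR
  have hR2 : (0 : ℝ) < (R : ℝ) ^ 2 := by positivity
  set y := Int.fract x with hy
  have hy0 : 0 ≤ y := Int.fract_nonneg x
  have hy1 : y < 1 := Int.fract_lt_one x
  set j := ⌊y * (R : ℝ) ^ 2⌋₊ with hj
  have hj1 : (j : ℝ) ≤ y * (R : ℝ) ^ 2 := Nat.floor_le (by positivity)
  have hj2 : y * (R : ℝ) ^ 2 < j + 1 := Nat.lt_floor_add_one _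
  have hj3 : j ∈ range (R ^ 2 + 1) := by
    rw [mem_range]
    have : (j : ℝ) < (R : ℝ) ^ 2 + 1 := by nlinarith
    exact_mod_cast this
  have h1 : ‖gg S p c R ((j : ℝ) / (R : ℝ) ^ 2) ω‖ ≤ 2 * (R : ℝ) ^ ((1 - c) / 2 + ε) := by
    have hn : ω ∉ ({ω | (R : ℝ) ^ ((1 - c) / 2 + ε) <
        |XX S p c R (fun n => mr n * Real.cos (2 * Real.pi * n * ((j : ℝ) / (R : ℝ) ^ 2))) ω|} ∪
        {ω | (R : ℝ) ^ ((1 - c) / 2 + ε) <
        |XX S p c R (fun n => mr n * Real.sin (2 * Real.pi * n * ((j : ℝ) / (R : ℝ) ^ 2))) ω|}) := by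
      intro hmem
      apply hω
      unfold EE
      exact Set.mem_biUnion (show j ∈ (range (R ^ 2 + 1)) from hj3) hmem
    rw [Set.mem_union, not_or] at hn
    have ha := not_lt.1 (show ¬ ((R : ℝ) ^ ((1 - c) / 2 + ε) <
        |XX S p c R (fun n => mr n * Real.cos (2 * Real.pi * n * ((j : ℝ) / (R : ℝ) ^ 2))) ω|) from
        hn.1)
    have hb := not_lt.1 (show ¬ ((R : ℝ) ^ ((1 - c) / 2 + ε) <
        |XX S p c R (fun n => mr n * Real.sin (2 * Real.pi * n * ((j : ℝ) / (R : ℝ) ^ 2))) ω|) from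
        hn.2)
    linarith [gg_norm S p c R ((j : ℝ) / (R : ℝ) ^ 2) ω]
  have h2 : ‖gg S p c R y ω - gg S p c R ((j : ℝ) / (R : ℝ) ^ 2) ω‖ ≤ 2 * Real.pi := by
    refine (gg_lip hD R _ _ ω).trans ?_
    have h3 : |y - (j : ℝ) / (R : ℝ) ^ 2| ≤ 1 / (R : ℝ) ^ 2 := by
      have e : y - (j : ℝ) / (R : ℝ) ^ 2 = (y * (R : ℝ) ^ 2 - j) / (R : ℝ) ^ 2 := by
        field_simp
      rw [e, abs_of_nonneg (div_nonneg (by linarith) hR2.le)]
      apply div_le_div_of_nonneg_right _ hR2.le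
      linarith
    calc 2 * Real.pi * (R : ℝ) ^ 2 * |y - (j : ℝ) / (R : ℝ) ^ 2|
        ≤ 2 * Real.pi * (R : ℝ) ^ 2 * (1 / (R : ℝ) ^ 2) := by
          apply mul_le_mul_of_nonneg_left h3 (by positivity)
      _ = 2 * Real.pi := by field_simp
  rw [gg_fract, ← hy]
  have h4 : gg S p c R y ω = gg S p c R ((j : ℝ) / (R : ℝ) ^ 2) ω +
      (gg S p c R y ω - gg S p c R ((j : ℝ) / (R : ℝ) ^ 2) ω) := by ring
  rw [h4]
  exact (norm_add_le _ _).trans (add_le_add h1 h2)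

theorem diff_bound (hT : S_TAIL.{u}) (hD : Dat P S p c) :
    ∀ᵐ ω ∂P, Bound (fun R x => FA {n | ω ∈ S n} R x -
      Fd (fun n => p * (n : ℝ) ^ (-c)) R x) ((1 - c) / 2) := by
  have h1 : ∀ᵐ ω ∂P, ∀ k : ℕ, ∀ᶠ R : ℕ in atTop, ω ∉ EE S p c (1 / ((k : ℝ) + 1)) (R + 1) :=
    ae_all_iff.2 fun k => ae_EE hT hD _ (by positivity)
  filter_upwards [h1] with ω hω
  intro ε hε
  obtain ⟨k, hk⟩ := exists_nat_one_div_lt hε
  obtain ⟨R0, hR0⟩ := eventually_atTop.1 (hω k)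
  refine ⟨2 + 2 * Real.pi + R0, fun R x => ?_⟩
  show ‖FA {n | ω ∈ S n} R x - Fd (fun n => p * (n : ℝ) ^ (-c)) R x‖ ≤ _
  rw [gg_FA]
  have hpi := Real.pi_pos
  rcases Nat.eq_zero_or_pos R with h0 | hpos
  · have h5 := gg_triv hD R x ω
    subst h0
    refine h5.trans ?_
    push_cast
    positivity
  have hR1 : (1 : ℝ) ≤ R := by exact_mod_cast hpos
  have hex : 0 < (1 - c) / 2 := by linarith [hD.c1]
  have hone : 1 ≤ (R : ℝ) ^ ((1 - c) / 2 + ε) := Real.one_le_rpow hR1 (by linarith)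
  have hR00 : (0 : ℝ) ≤ R0 := by positivity
  by_cases hlt : R ≤ R0
  · refine (gg_triv hD R x ω).trans ?_
    have : (R : ℝ) ≤ R0 := by exact_mod_cast hlt
    nlinarith
  · have hm := hR0 (R - 1) (by omega)
    rw [Nat.sub_add_cancel hpos] at hm
    refine (gg_sup hD _ R hpos ω hm x).trans ?_
    have h6 : (R : ℝ) ^ ((1 - c) / 2 + 1 / ((k : ℝ) + 1)) ≤ (R : ℝ) ^ ((1 - c) / 2 + ε) :=
      Real.rpow_le_rpow_of_exponent_le hR1 (by linarith)
    nlinarith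

end

end Pool.Agent.R346.TH
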