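import Mathlib

open MeasureTheory ProbabilityTheory

namespace Pool.Agent.R346.TH

theorem tail_mgf {Ω : Type*} [MeasurableSpace Ω] (P : Measure Ω) [IsProbabilityMeasure P]
    (S : Set Ω) (hm : MeasurableSet S) (b d t : ℝ) (hd : P.real S = d) (hb : |b| ≤ 1)
    (ht0 : 0 ≤ t) (ht1 : t ≤ 1) :
    mgf (fun ω => b * (S.indicator (fun _ => (1 : ℝ)) ω - d)) P t ≤ Real.exp (t ^ 2 * d) := by
  have hd0 : 0 ≤ d := by rw [← hd]; exact measureReal_nonneg
  set s := t * b with hs
  have hs1 : |s| ≤ 1 := by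
    rw [hs, abs_mul, abs_of_nonneg ht0]
    nlinarith [abs_nonneg b]
  have hs2 : s ^ 2 ≤ t ^ 2 := by
    rw [hs, mul_pow]
    have : b ^ 2 ≤ 1 := by
      have := sq_le_sq' (by linarith [neg_abs_le b, hb]) (le_trans (le_abs_self b) hb)
      simpa using this
    nlinarith [sq_nonneg t]
  have e1 : (fun ω => Real.exp (t * (b * (S.indicator (fun _ => (1 : ℝ)) ω - d)))) =
      fun ω => Real.exp (-(s * d)) * (1 + (Real.exp s - 1) * S.indicator (fun _ => (1 : ℝ)) ω) := by
    funext ω
    by_cases h : ω ∈ S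
    · rw [Set.indicator_of_mem h]
      have : t * (b * (1 - d)) = -(s * d) + s := by rw [hs]; ring
      rw [this, Real.exp_add]
      ring
    · rw [Set.indicator_of_notMem h]
      have : t * (b * (0 - d)) = -(s * d) := by rw [hs]; ring
      rw [this]
      ring
  have hint : Integrable (S.indicator (fun _ => (1 : ℝ))) P :=
    (integrable_const (1 : ℝ)).indicator hm
  have e2 : mgf (fun ω => b * (S.indicator (fun _ => (1 : ℝ)) ω - d)) P t =
      Real.exp (-(s * d)) * (1 + (Real.exp s - 1) * d) := by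
    unfold mgf
    rw [e1, integral_const_mul, integral_add (integrable_const _) (hint.const_mul _),
      integral_const_mul, integral_indicator_const _ hm, hd]
    simp
  rw [e2]
  have h1 : 1 + (Real.exp s - 1) * d ≤ Real.exp ((Real.exp s - 1) * d) := by
    have := Real.add_one_le_exp ((Real.exp s - 1) * d)
    linarith
  have h2 : Real.exp s - 1 - s ≤ s ^ 2 := by
    have := Real.abs_exp_sub_one_sub_id_le hs1
    exact (le_abs_self _).trans this
  calc Real.exp (-(s * d)) * (1 + (Real.exp s - 1) * d) ≤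
        Real.exp (-(s * d)) * Real.exp ((Real.exp s - 1) * d) :=
        mul_le_mul_of_nonneg_left h1 (Real.exp_pos _).le
    _ = Real.exp ((Real.exp s - 1 - s) * d) := by rw [← Real.exp_add]; congr 1; ring
    _ ≤ Real.exp (t ^ 2 * d) := by
        refine Real.exp_le_exp.2 (mul_le_mul_of_nonneg_right (h2.trans hs2) hd0)

theorem tail_core {Ω : Type*} [MeasurableSpace Ω] (P : Measure Ω) [IsProbabilityMeasure P]
    (S : ℕ → Set Ω) (hm : ∀ n, MeasurableSet (S n)) (hi : iIndepSet S P) (b δ : ℕ → ℝ)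
    (I : Finset ℕ) (hδ : ∀ n, P.real (S n) = δ n) (hb : ∀ n, |b n| ≤ 1)
    (t y : ℝ) (ht0 : 0 ≤ t) (ht1 : t ≤ 1) :
    P.real {ω | y ≤ ∑ n ∈ I, b n * ((S n).indicator (fun _ => (1 : ℝ)) ω - δ n)} ≤
      Real.exp (-t * y) * Real.exp (t ^ 2 * ∑ n ∈ I, δ n) := by
  set X : ℕ → Ω → ℝ := fun n ω => b n * ((S n).indicator (fun _ => (1 : ℝ)) ω - δ n) with hX
  have hXm : ∀ n, Measurable (X n) := fun n =>
    ((measurable_const.indicator (hm n)).sub measurable_const).const_mul _
  have hind : iIndepFun X P := by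
    have h1 : iIndepFun (fun n => (S n).indicator (fun _ => (1 : ℝ))) P := hi.iIndepFun_indicator
    exact h1.comp (fun n x => b n * (x - δ n)) fun n =>
      (measurable_id.sub measurable_const).const_mul _
  have hsum : (fun ω => ∑ n ∈ I, b n * ((S n).indicator (fun _ => (1 : ℝ)) ω - δ n)) =
      ∑ n ∈ I, X n := by
    funext ω
    rw [Finset.sum_apply]
  have hbd : ∀ n ω, |X n ω| ≤ 1 + |δ n| := by
    intro n ω
    rw [hX]
    simp only
    rw [abs_mul]
    have h1 : |(S n).indicator (fun _ => (1 : ℝ)) ω - δ n| ≤ 1 + |δ n| := by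
      refine (abs_sub _ _).trans (add_le_add_left ?_ _)
      by_cases h : ω ∈ S n
      · rw [Set.indicator_of_mem h]; simp
      · rw [Set.indicator_of_notMem h]; simp
    calc |b n| * |(S n).indicator (fun _ => (1 : ℝ)) ω - δ n| ≤ 1 * (1 + |δ n|) :=
          mul_le_mul (hb n) h1 (abs_nonneg _) zero_le_one
      _ = 1 + |δ n| := one_mul _
  have hint : Integrable (fun ω => Real.exp (t * (∑ n ∈ I, X n) ω)) P := by
    refine Integrable.of_bound (C := Real.exp (t * ∑ n ∈ I, (1 + |δ n|))) ?_ ?_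
    · refine (Real.measurable_exp.comp ?_).aestronglyMeasurable
      have e : (fun ω => t * (∑ n ∈ I, X n) ω) = fun ω => t * ∑ n ∈ I, X n ω := by
        funext ω
        rw [Finset.sum_apply]
      rw [e]
      exact (Finset.measurable_sum I fun n _ => hXm n).const_mul t
    · refine Filter.Eventually.of_forall fun ω => ?_
      rw [Real.norm_eq_abs, abs_of_pos (Real.exp_pos _)]
      refine Real.exp_le_exp.2 (mul_le_mul_of_nonneg_left ?_ ht0)
      rw [Finset.sum_apply]
      exact Finset.sum_le_sum fun n _ => (le_abs_self _).trans (hbd n ω)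
  have h1 : P.real {ω | y ≤ (∑ n ∈ I, X n) ω} ≤ Real.exp (-t * y) * mgf (∑ n ∈ I, X n) P t :=
    measure_ge_le_exp_mul_mgf y ht0 hint
  have h2 : mgf (∑ n ∈ I, X n) P t ≤ Real.exp (t ^ 2 * ∑ n ∈ I, δ n) := by
    rw [hind.mgf_sum hXm, Finset.mul_sum, Real.exp_sum]
    exact Finset.prod_le_prod (fun n _ => mgf_nonneg) fun n _ =>
      tail_mgf P (S n) (hm n) (b n) (δ n) t (hδ n) (hb n) ht0 ht1
  have h3 : {ω | y ≤ ∑ n ∈ I, b n * ((S n).indicator (fun _ => (1 : ℝ)) ω - δ n)} =
      {ω | y ≤ (∑ n ∈ I, X n) ω} := by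
    rw [← hsum]
  rw [h3]
  exact h1.trans (mul_le_mul_of_nonneg_left h2 (Real.exp_pos _).le)

end Pool.Agent.R346.TH
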