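import Pool.Agent.R346.TH.Sup2
import Pool.Agent.R346.TH.TailCore
import Pool.Agent.R346.TH.AbelCore

/-!
# Random thinnings of the Moebius exponential sum: conclusion
-/

set_option autoImplicit false

open MeasureTheory ProbabilityTheory Finset Filter Topology

namespace Pool.Agent.R346.TH

universe u

theorem tail : S_TAIL.{u} := by
  intro Ω _ P _ S δ R b t lam hm hi hδ hb ht0 ht1
  have h := tail_core P S hm hi b δ (Icc 1 R) hδ hb t lam ht0 ht1
  refine h.trans (le_of_eq ?_)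
  rw [← Real.exp_add]
  congr 1
  ring

theorem Fd_eq (p c : ℝ) (R : ℕ) (x : ℝ) : Fd (fun n => p * (n : ℝ) ^ (-c)) R x =
    (p : ℂ) * ∑ n ∈ Icc 1 R, (((n : ℝ) ^ (-c) : ℝ) : ℂ) * (mu n * ee n x) := by
  unfold Fd
  rw [mul_sum]
  apply sum_congr rfl
  intro n _
  rw [Complex.ofReal_mul]
  ring

theorem abel : S_ABEL := by
  intro p c a hp hc0 hc1 ha
  constructor
  · intro hF ε hε
    obtain ⟨C, hC⟩ := hF (ε / 2) (half_pos hε)
    have hs : 0 ≤ a - c + ε / 2 := by linarith
    have hb : ∀ (x : ℝ) (n : ℕ), ‖∑ m ∈ Icc 1 n, (mu m * ee m x)‖ ≤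
        |C| * (n : ℝ) ^ (a - c + ε / 2 + c) := by
      intro x n
      have h1 := hC n x
      unfold F at h1
      have e1 : a - c + ε / 2 + c = a + ε / 2 := by ring
      rw [e1]
      exact h1.trans (mul_le_mul_of_nonneg_right (le_abs_self C) (by positivity))
    refine ⟨p * (|C| * (2 + 1 / (ε / 2))), fun R x => ?_⟩
    rw [Fd_eq, norm_mul, Complex.norm_real, Real.norm_eq_abs, abs_of_pos hp, mul_assoc]
    apply mul_le_mul_of_nonneg_left _ hp.le
    rcases Nat.eq_zero_or_pos R with h0 | hR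
    · subst h0
      simp only [show Icc 1 0 = (∅ : Finset ℕ) from rfl, sum_empty, norm_zero]
      positivity
    · have h := ab_fwd c |C| (a - c + ε / 2) (ε / 2) hc0 hc1.le (abs_nonneg _) hs (half_pos hε)
        (fun m => mu m * ee m x) (hb x) R hR
      have e2 : a - c + ε / 2 + ε / 2 = a - c + ε := by ring
      rw [e2] at h
      exact h
  · intro hF ε hε
    obtain ⟨C, hC⟩ := hF ε hε
    have hs : 0 ≤ a - c + ε := by linarith
    have hb : ∀ (x : ℝ) (n : ℕ),
        ‖∑ m ∈ Icc 1 n, (((m : ℝ) ^ (-c) : ℝ) : ℂ) * (mu m * ee m x)‖ ≤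
        (|C| / p) * (n : ℝ) ^ (a - c + ε) := by
      intro x n
      have h1 := hC n x
      rw [Fd_eq, norm_mul, Complex.norm_real, Real.norm_eq_abs, abs_of_pos hp] at h1
      have h2 : C * (n : ℝ) ^ (a - c + ε) ≤ |C| * (n : ℝ) ^ (a - c + ε) :=
        mul_le_mul_of_nonneg_right (le_abs_self C) (by positivity)
      rw [div_mul_eq_mul_div, le_div_iff₀ hp]
      linarith
    refine ⟨2 * (|C| / p), fun R x => ?_⟩
    unfold F
    rcases Nat.eq_zero_or_pos R with h0 | hR
    · subst h0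
      simp only [show Icc 1 0 = (∅ : Finset ℕ) from rfl, sum_empty, norm_zero]
      positivity
    · have h := ab_bwd c (|C| / p) (a - c + ε) hc0 (by positivity) hs
        (fun m => mu m * ee m x) (hb x) R hR
      have e2 : a - c + ε + c = a + ε := by ring
      rw [e2] at h
      exact h

theorem Bound.mono {G : ℕ → ℝ → ℂ} {a b : ℝ} (hab : a ≤ b) (h : Bound G a) : Bound G b := by
  intro ε hε
  obtain ⟨C, hC⟩ := h (ε + (b - a)) (by linarith)
  refine ⟨C, fun R x => ?_⟩
  have h1 := hC R x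
  have e : a + (ε + (b - a)) = b + ε := by ring
  rwa [e] at h1

theorem Bound.add {G H : ℕ → ℝ → ℂ} {a : ℝ} (hG : Bound G a) (hH : Bound H a) :
    Bound (fun R x => G R x + H R x) a := by
  intro ε hε
  obtain ⟨C, hC⟩ := hG ε hε
  obtain ⟨D, hD⟩ := hH ε hε
  refine ⟨C + D, fun R x => ?_⟩
  refine (norm_add_le _ _).trans ?_
  rw [add_mul]
  exact add_le_add (hC R x) (hD R x)

theorem Bound.neg {G : ℕ → ℝ → ℂ} {a : ℝ} (hG : Bound G a) :
    Bound (fun R x => -G R x) a := by
  intro ε hε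
  obtain ⟨C, hC⟩ := hG ε hε
  exact ⟨C, fun R x => by rw [norm_neg]; exact hC R x⟩

theorem Bound.congr {G H : ℕ → ℝ → ℂ} {a : ℝ} (hG : Bound G a) (h : ∀ R x, G R x = H R x) :
    Bound H a := by
  intro ε hε
  obtain ⟨C, hC⟩ := hG ε hε
  exact ⟨C, fun R x => by rw [← h]; exact hC R x⟩

section

variable {Ω : Type u} [MeasurableSpace Ω] {P : Measure Ω} {S : ℕ → Set Ω} {p c : ℝ}

/-- almost surely, the random sum obeys the bound iff `F` does -/
theorem ae_iff_F (hD : Dat P S p c) (a : ℝ) (ha : (1 + c) / 2 ≤ a) :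
    ∀ᵐ ω ∂P, (Bound (FA {n | ω ∈ S n}) (a - c) ↔ Bound F a) := by
  filter_upwards [diff_bound tail hD] with ω hω
  have h1 : Bound (fun R x => FA {n | ω ∈ S n} R x -
      Fd (fun n => p * (n : ℝ) ^ (-c)) R x) (a - c) := hω.mono (by linarith)
  rw [abel p c a hD.p0 hD.c0 hD.c1 ha]
  constructor
  · intro h
    exact (h.add h1.neg).congr fun R x => by ring
  · intro h
    exact (h.add h1).congr fun R x => by ring

end

end Pool.Agent.R346.TH
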